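import Pool.Agent.MP_caba0b_al.H43.Iface

/-! Amalgamation of unitary groups over the semidirect product, from the combinatorial core. -/

namespace Pool.Agent.MP_caba0b_al.H41

open Pool.Agent.MP_caba0b_al.H43 Equiv

/-- the character of the torus of rank two with weight `μ` -/
noncomputable def ch (μ : GaussianInt) : Circle × Circle →* Circle where
  toFun x := x.1 ^ μ.re * x.2 ^ μ.im
  map_one' := by simp
  map_mul' x y := by
    simp only [Prod.fst_mul, Prod.snd_mul, mul_zpow]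
    exact mul_mul_mul_comm _ _ _ _

lemma ch_apply (μ : GaussianInt) (x : Circle × Circle) : ch μ x = x.1 ^ μ.re * x.2 ^ μ.im := rfl

lemma ch_zero (x : Circle × Circle) : ch 0 x = 1 := by simp [ch_apply]

lemma ch_add (μ ν : GaussianInt) (x : Circle × Circle) : ch (μ + ν) x = ch μ x * ch ν x := by
  simp only [ch_apply, Zsqrtd.re_add, Zsqrtd.im_add, zpow_add]
  exact mul_mul_mul_comm _ _ _ _

lemma ch_zsmul (k : ℤ) (μ : GaussianInt) (x : Circle × Circle) : ch (k • μ) x = ch μ x ^ k := by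
  have h1 : (k • μ).re = μ.re * k := by simp [mul_comm]
  have h2 : (k • μ).im = μ.im * k := by simp [mul_comm]
  rw [ch_apply, ch_apply, h1, h2, mul_zpow, zpow_mul, zpow_mul]

lemma ch_sum {ι : Type} (F : Finset ι) (μ : ι → GaussianInt) (x : Circle × Circle) :
    ch (∑ i ∈ F, μ i) x = ∏ i ∈ F, ch (μ i) x := by
  classical
  induction F using Finset.induction_on with
  | empty => simp [ch_zero]
  | insert a F ha ih => rw [Finset.sum_insert ha, Finset.prod_insert ha, ch_add, ih]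

lemma zpow_eq_one_all {k : ℤ} (h : ∀ z : Circle, z ^ k = 1) : k = 0 := by
  by_contra hk
  have hk' : (k : ℝ) ≠ 0 := by exact_mod_cast hk
  have h1 := h (Circle.exp (Real.pi / k))
  rw [← Circle.exp_intCast_mul, Circle.exp_eq_one] at h1
  obtain ⟨m, hm⟩ := h1
  have h2 : (k : ℝ) * (Real.pi / k) = Real.pi := by field_simp
  rw [h2] at hm
  have h3 : (1 : ℝ) = 2 * m := by
    have := Real.pi_pos
    apply mul_right_cancel₀ this.ne'
    linarith
  have h4 : (1 : ℤ) = 2 * m := by exact_mod_cast h3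
  omega

lemma ch_inj {μ ν : GaussianInt} (h : ∀ x, ch μ x = ch ν x) : μ = ν := by
  have h1 : μ.re - ν.re = 0 := zpow_eq_one_all fun z => by
    have := h (z, 1)
    simp only [ch_apply, one_zpow, mul_one] at this
    rw [zpow_sub, this, mul_inv_cancel]
  have h2 : μ.im - ν.im = 0 := zpow_eq_one_all fun z => by
    have := h (1, z)
    simp only [ch_apply, one_zpow, one_mul] at this
    rw [zpow_sub, this, mul_inv_cancel]
  ext <;> omega

/-- two families of weights with the same character differ by a permutation -/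
lemma perm_of_sum_eq {n : ℕ} (a a' : Fin n → GaussianInt)
    (h : ∀ x, ∑ i, (ch (a i) x : ℂ) = ∑ i, (ch (a' i) x : ℂ)) :
    ∃ π : Perm (Fin n), ∀ i, a' (π i) = a i := by
  classical
  have hinj : Function.Injective fun μ : GaussianInt => Circle.coeHom.comp (ch μ) := by
    intro μ ν hμν
    refine ch_inj fun x => Subtype.ext ?_
    exact DFunLike.congr_fun hμν x
  have hli := (linearIndependent_monoidHom (Circle × Circle) ℂ).comp _ hinj
  have heq : (∑ i, Finsupp.single (a i) (1 : ℂ)) = ∑ i, Finsupp.single (a' i) (1 : ℂ) := by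
    apply hli
    rw [map_sum, map_sum]
    funext x
    simp only [Finsupp.linearCombination_single, one_smul, Finset.sum_apply, Function.comp_apply]
    exact h x
  have hc : ∀ μ, Fintype.card {i // a i = μ} = Fintype.card {i // a' i = μ} := by
    intro μ
    have h1 := DFunLike.congr_fun heq μ
    simp only [Finsupp.finsetSum_apply, Finsupp.single_apply, Finset.sum_boole] at h1
    rw [Fintype.card_subtype, Fintype.card_subtype]
    exact_mod_cast h1
  exact ⟨Equiv.ofFiberEquiv fun μ => Fintype.equivOfCardEq (hc μ), fun i =>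
    Equiv.ofFiberEquiv_map (fun μ => Fintype.equivOfCardEq (hc μ)) i⟩

lemma tr_diagU {n : ℕ} (x : Fin n → Circle) : tr (diagU x) = ∑ i, (x i : ℂ) := by
  simp [tr, diagU]

lemma diagU_one {n : ℕ} : diagU (fun _ : Fin n => (1 : Circle)) = 1 := by
  apply Subtype.ext
  simp [diagU]

lemma diagU_eq_one {n : ℕ} {x : Fin n → Circle} (h : diagU x = 1) (i : Fin n) : x i = 1 := by
  have h1 := congrArg (fun g : U n => (g : Matrix (Fin n) (Fin n) ℂ) i i) h
  apply Subtype.ext
  simpa [diagU] using h1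

lemma tr_one (n : ℕ) : tr (1 : U n) = n := by simp [tr]

/-- the weights of `ρ` on the torus are `a` and on the cyclic group are `b` -/
structure Good {A : Type} [Group A] (ι : Circle × Circle →* A) (f : A) {n : ℕ} (ρ : A →* U n)
    (a : Fin n → GaussianInt) (b : Fin n → ZMod 4) : Prop where
  tor : ∃ u : U n, ∀ x, ρ (ι x) = u * diagU (fun i => ch (a i) x) * u⁻¹
  cyc : ∃ u : U n, ∀ j : ℕ, ρ (f ^ j) = u * diagU (fun i => ZMod.toCircle (j • b i)) * u⁻¹

section weights

variable {A : Type} [Group A] [TopologicalSpace A] {ι : Circle × Circle →* A} {f : A} {n : ℕ}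
  {ρ : A →* U n}

lemma exists_good (hD : DiagStmt) (hN : Nice ι f) (hρ : Continuous ρ) :
    ∃ a b, Good ι f ρ a b := by
  obtain ⟨u, χ, hχ, hu⟩ := hD.1 (Circle × Circle) n (ρ.comp ι) (hρ.comp hN.cont)
  have h1 : ∀ i, ∃ μ : GaussianInt, ∀ x, χ i x = ch μ x := by
    intro i
    obtain ⟨p, hp⟩ := hD.2 ((χ i).comp (MonoidHom.inl _ _))
      ((hχ i).comp (continuous_id.prodMk continuous_const))
    obtain ⟨q, hq⟩ := hD.2 ((χ i).comp (MonoidHom.inr _ _))
      ((hχ i).comp (continuous_const.prodMk continuous_id))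
    refine ⟨⟨p, q⟩, fun x => ?_⟩
    have hx : x = (x.1, 1) * (1, x.2) := by simp
    rw [ch_apply, ← hp, ← hq]
    conv_lhs => rw [hx, map_mul]
    rfl
  choose a ha using h1
  obtain ⟨v, ψ, -, hv⟩ := hD.1 (Multiplicative ℤ) n (ρ.comp (zpowersHom A f))
    continuous_of_discreteTopology
  have h2 : ∀ i, ∃ c : ZMod 4, ψ i (Multiplicative.ofAdd 1) = ZMod.toCircle c := by
    intro i
    have h3 := hv (Multiplicative.ofAdd 1 ^ 4)
    have h4 : (ρ.comp (zpowersHom A f)) (Multiplicative.ofAdd 1 ^ 4) = 1 := by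
      rw [map_pow]
      simp only [MonoidHom.comp_apply, zpowersHom_apply, toAdd_ofAdd, zpow_one]
      rw [← map_pow, hN.four, map_one]
    rw [h4] at h3
    have h5 : diagU (fun i => ψ i (Multiplicative.ofAdd 1 ^ 4)) = 1 := by
      have := congrArg (fun g => v⁻¹ * g * v) h3
      simpa [mul_assoc] using this.symm
    have h6 := diagU_eq_one h5 i
    rw [map_pow] at h6
    obtain ⟨c, hc⟩ := (bijective_rootsOfUnityAddChar 4).2
      ⟨toUnits (ψ i (Multiplicative.ofAdd 1)), by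
        rw [mem_rootsOfUnity, ← map_pow, h6, map_one]⟩
    refine ⟨c, ?_⟩
    have h7 := congrArg (fun w : rootsOfUnity 4 Circle => ((w : Circleˣ) : Circle)) hc
    simpa using h7.symm
  choose b hb using h2
  refine ⟨a, b, ⟨u, fun x => ?_⟩, ⟨v, fun j => ?_⟩⟩
  · rw [← funext fun i => ha i x]
    exact hu x
  · have h3 := hv (Multiplicative.ofAdd 1 ^ j)
    have h4 : (ρ.comp (zpowersHom A f)) (Multiplicative.ofAdd 1 ^ j) = ρ (f ^ j) := by
      rw [map_pow]
      simp only [MonoidHom.comp_apply, zpowersHom_apply, toAdd_ofAdd, zpow_one]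
      rw [← map_pow]
    rw [← h4, h3]
    congr 3
    funext i
    rw [map_pow, hb, AddChar.map_nsmul_eq_pow]

variable {a : Fin n → GaussianInt} {b : Fin n → ZMod 4}

omit [TopologicalSpace A] in
lemma Good.tr_tor (h : Good ι f ρ a b) (x : Circle × Circle) :
    tr (ρ (ι x)) = ∑ i, (ch (a i) x : ℂ) := by
  obtain ⟨u, hu⟩ := h.tor
  rw [hu, tr_conj, tr_diagU]

lemma Good.rot (h : Good ι f ρ a b) (hN : Nice ι f) :
    ∃ π : Perm (Fin n), ∀ i, a (π i) = ⟨0, 1⟩ * a i := by
  refine perm_of_sum_eq (fun i => ⟨0, 1⟩ * a i) a fun x => ?_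
  have h2 : tr (ρ (ι (x.2, x.1⁻¹))) = tr (ρ (ι x)) := by
    have h3 := hN.conj x.2 x.1⁻¹
    rw [inv_inv] at h3
    have h4 : ι x = f * ι (x.2, x.1⁻¹) * f⁻¹ := h3.symm
    rw [h4, map_mul, map_mul, map_inv, tr_conj]
  rw [← h.tr_tor, ← h2, h.tr_tor]
  refine Finset.sum_congr rfl fun i _ => ?_
  have h1 : ch (⟨0, 1⟩ * a i) x = ch (a i) (x.2, x.1⁻¹) := by
    simp only [ch_apply, Zsqrtd.re_mul, Zsqrtd.im_mul]
    simp [mul_comm]
  rw [h1]

lemma Good.surj (h : Good ι f ρ a b) (hN : Nice ι f) (hρ : Function.Injective ρ)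
    (μ : GaussianInt) : ∃ ν : Wt n, ∑ i, ν i • a i = μ := by
  classical
  by_contra hμ
  let L : Submodule ℤ GaussianInt := Submodule.span ℤ (Set.range a)
  have hL : μ ∉ L := fun hm => hμ ((Submodule.mem_span_range_iff_exists_fun ℤ).1 hm)
  have h0 : (L.mkQ μ) ≠ 0 := fun h0 => hL ((Submodule.Quotient.mk_eq_zero L).1 h0)
  obtain ⟨c, hc⟩ := CharacterModule.exists_character_apply_ne_zero_of_ne_zero h0
  obtain ⟨q₁, hq₁⟩ := QuotientAddGroup.mk_surjective (c (L.mkQ 1))
  obtain ⟨q₂, hq₂⟩ := QuotientAddGroup.mk_surjective (c (L.mkQ ⟨0, 1⟩))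
  have key : ∀ z : GaussianInt, c (L.mkQ z) = ((z.re • q₁ + z.im • q₂ : ℚ) : AddCircle (1 : ℚ)) := by
    intro z
    have hz : z = z.re • (1 : GaussianInt) + z.im • (⟨0, 1⟩ : GaussianInt) := by
      ext <;> simp
    conv_lhs => rw [hz]
    rw [map_add, map_zsmul, map_zsmul, map_add, map_zsmul, map_zsmul, ← hq₁, ← hq₂]
    rfl
  have hx : ι (Circle.exp (q₁ * (2 * Real.pi)), Circle.exp (q₂ * (2 * Real.pi))) = 1 := by
    apply hρ
    obtain ⟨u, hu⟩ := h.tor
    have h1 : (fun i => ch (a i)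
        (Circle.exp (q₁ * (2 * Real.pi)), Circle.exp (q₂ * (2 * Real.pi)))) = fun _ => 1 := by
      funext i
      have h2 : c (L.mkQ (a i)) = 0 := by
        have : L.mkQ (a i) = 0 :=
          (Submodule.Quotient.mk_eq_zero L).2 (Submodule.subset_span ⟨i, rfl⟩)
        rw [this, map_zero]
      rw [key, AddCircle.coe_eq_zero_iff] at h2
      obtain ⟨m, hm⟩ := h2
      rw [ch_apply, ← Circle.exp_intCast_mul, ← Circle.exp_intCast_mul, ← Circle.exp_add,
        Circle.exp_eq_one]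
      refine ⟨m, ?_⟩
      have h3 : (m : ℝ) = (a i).re * q₁ + (a i).im * q₂ := by
        simp only [zsmul_eq_mul, mul_one] at hm
        exact_mod_cast hm
      rw [h3]
      ring
    rw [hu, h1, diagU_one, map_one]
    simp
  have hx' := hN.inj (hx.trans (map_one ι).symm)
  have hz : ∀ q : ℚ, Circle.exp (q * (2 * Real.pi)) = 1 → (q : AddCircle (1 : ℚ)) = 0 := by
    intro q hq
    obtain ⟨m, hm⟩ := Circle.exp_eq_one.1 hq
    have h1 : (q : ℝ) = m := mul_right_cancel₀ (by positivity) hm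
    rw [AddCircle.coe_eq_zero_iff]
    refine ⟨m, ?_⟩
    simp only [zsmul_eq_mul, mul_one]
    exact_mod_cast h1.symm
  apply hc
  rw [key, AddCircle.coe_add, AddCircle.coe_zsmul, AddCircle.coe_zsmul,
    hz q₁ (congrArg Prod.fst hx'), hz q₂ (congrArg Prod.snd hx')]
  simp

lemma conj_two (hN : Nice ι f) (s t : Circle) :
    f ^ 2 * ι (s, t) * (f ^ 2)⁻¹ = ι (s⁻¹, t⁻¹) := by
  rw [← hN.conj t⁻¹ s, ← hN.conj s t, pow_two]
  group

lemma conj_three (hN : Nice ι f) (s t : Circle) :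
    f ^ 3 * ι (s, t) * (f ^ 3)⁻¹ = ι (t, s⁻¹) := by
  have h := hN.conj s⁻¹ t⁻¹
  rw [inv_inv] at h
  rw [← h, ← conj_two hN]
  group

lemma Good.odd (h : Good ι f ρ a b) (hN : Nice ι f) (hρ : Function.Injective ρ) :
    ∃ i, IsUnit (b i) := by
  by_contra hb
  push Not at hb
  have h1 : ∀ c : ZMod 4, ¬ IsUnit c → 2 • c = 0 := by decide
  obtain ⟨u, hu⟩ := h.cyc
  have h2 : f ^ 2 = 1 := by
    apply hρ
    have h3 : (fun i => ZMod.toCircle (2 • b i)) = fun _ => 1 := by
      funext i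
      rw [h1 _ (hb i), AddChar.map_zero_eq_one]
    rw [hu, h3, diagU_one, map_one]
    simp
  have h4 : (2 : ℤ) = 0 := zpow_eq_one_all fun z => by
    have h5 := conj_two hN z 1
    rw [h2, one_mul, inv_one, mul_one] at h5
    have h6 : z = z⁻¹ := congrArg Prod.fst (hN.inj h5)
    rw [zpow_two]
    nth_rewrite 2 [h6]
    exact mul_inv_cancel z
  omega

lemma tight_of_rot (hr : ∃ π : Perm (Fin n), ∀ i, a (π i) = ⟨0, 1⟩ * a i) (ξ : ℂ) :
    ∑ i, ((ξ * (starRingEnd ℂ) (a i : ℂ)).re : ℂ) * (a i : ℂ) =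
      ((∑ i, (a i).re.natAbs ^ 2 : ℕ) : ℂ) * ξ := by
  obtain ⟨π, hπ⟩ := hr
  have hre : ∀ i, ((a (π i)).re : ℝ) = -(a i).im := fun i => by simp [hπ]
  have him : ∀ i, ((a (π i)).im : ℝ) = (a i).re := fun i => by simp [hπ]
  have h1 : ∑ i, ((a i).im : ℝ) ^ 2 = ∑ i, ((a i).re : ℝ) ^ 2 := by
    rw [← Equiv.sum_comp π]
    simp only [him]
  have h2 : ∑ i, ((a i).re : ℝ) * (a i).im = 0 := by
    have h3 : ∑ i, ((a i).re : ℝ) * (a i).im = -∑ i, ((a i).re : ℝ) * (a i).im := by
      conv_lhs => rw [← Equiv.sum_comp π]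
      rw [← Finset.sum_neg_distrib]
      exact Finset.sum_congr rfl fun i _ => by rw [hre, him]; ring
    linarith
  have h4 : ((∑ i, (a i).re.natAbs ^ 2 : ℕ) : ℂ) = ((∑ i, ((a i).re : ℝ) ^ 2 : ℝ) : ℂ) := by
    rw [← Complex.ofReal_natCast]
    congr 1
    push_cast
    exact Finset.sum_congr rfl fun i _ => by rw [Nat.cast_natAbs, Int.cast_abs, sq_abs]
  rw [h4]
  apply Complex.ext
  · rw [Complex.re_sum, Complex.re_ofReal_mul]
    have h5 : ∀ i, (((ξ * (starRingEnd ℂ) (a i : ℂ)).re : ℂ) * (a i : ℂ)).re =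
        ξ.re * ((a i).re : ℝ) ^ 2 + ξ.im * (((a i).re : ℝ) * (a i).im) := fun i => by
      rw [Complex.re_ofReal_mul]
      simp only [Complex.mul_re, Complex.conj_re, Complex.conj_im, ← GaussianInt.intCast_re,
        ← GaussianInt.intCast_im]
      ring
    simp only [h5, Finset.sum_add_distrib, ← Finset.mul_sum, h2]
    ring
  · rw [Complex.im_sum, Complex.im_ofReal_mul]
    have h5 : ∀ i, (((ξ * (starRingEnd ℂ) (a i : ℂ)).re : ℂ) * (a i : ℂ)).im =
        ξ.re * (((a i).re : ℝ) * (a i).im) + ξ.im * ((a i).im : ℝ) ^ 2 := fun i => by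
      rw [Complex.im_ofReal_mul]
      simp only [Complex.mul_re, Complex.conj_re, Complex.conj_im, ← GaussianInt.intCast_re,
        ← GaussianInt.intCast_im]
      ring
    simp only [h5, Finset.sum_add_distrib, ← Finset.mul_sum, h2, h1]
    ring

lemma pos_of_surj (hs : ∀ μ : GaussianInt, ∃ ν : Wt n, ∑ i, ν i • a i = μ) :
    0 < ∑ i, (a i).re.natAbs ^ 2 := by
  by_contra h0
  have h1 : ∑ i, (a i).re.natAbs ^ 2 = 0 := by omega
  rw [Finset.sum_eq_zero_iff] at h1
  obtain ⟨ν, hν⟩ := hs 1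
  have h2 : ∀ F : Finset (Fin n), (∑ i ∈ F, ν i • a i).re = 0 := by
    intro F
    induction F using Finset.induction_on with
    | empty => simp
    | insert i F hi ih =>
      have h3 : (a i).re = 0 := by simpa using h1 i (Finset.mem_univ _)
      rw [Finset.sum_insert hi, Zsqrtd.re_add, ih]
      simp [h3]
  have h3 := h2 Finset.univ
  rw [hν] at h3
  simp at h3

/-- every element is conjugate into the torus or into the cyclic group -/
lemma conj_class (hN : Nice ι f) (g : A) :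
    (∃ x, g = ι x) ∨ ∃ (c : A) (j : ℕ), g = c * f ^ j * c⁻¹ := by
  obtain ⟨⟨x, y⟩, j, rfl⟩ := hN.gen g
  have hsq : ∀ z : Circle, ∃ w : Circle, w * w = z := fun z =>
    ⟨Circle.exp (z.1.arg / 2), by rw [← Circle.exp_add, add_halves, Circle.exp_arg]⟩
  have hj : f ^ j = f ^ (j % 4) := by
    conv_lhs => rw [← Nat.div_add_mod j 4, pow_add, pow_mul, hN.four, one_pow, one_mul]
  have key : ∀ (k : ℕ) (p q : Circle × Circle), f ^ k * ι p * (f ^ k)⁻¹ = ι q →
      p * q⁻¹ = (x, y) → ∃ (c : A) (j : ℕ), ι (x, y) * f ^ k = c * f ^ j * c⁻¹ := by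
    intro k p q h1 h2
    refine ⟨ι p, k, ?_⟩
    rw [← h2, map_mul, map_inv, ← h1]
    group
  rw [hj]
  have h4 : j % 4 = 0 ∨ j % 4 = 1 ∨ j % 4 = 2 ∨ j % 4 = 3 := by omega
  rcases h4 with h | h | h | h <;> rw [h]
  · exact Or.inl ⟨(x, y), by simp⟩
  · obtain ⟨t, ht⟩ := hsq (x * y)
    refine Or.inr (key 1 (x * t⁻¹, t) (t⁻¹, x * t⁻¹) (by rw [pow_one]; exact hN.conj _ _) ?_)
    refine Prod.ext (by simp) ?_
    simp only [Prod.snd_mul, Prod.snd_inv, mul_inv_rev, inv_inv]
    rw [← mul_assoc, ht, mul_comm x y, mul_inv_cancel_right]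
  · obtain ⟨s, hs⟩ := hsq x
    obtain ⟨t, ht⟩ := hsq y
    exact Or.inr (key 2 (s, t) (s⁻¹, t⁻¹) (conj_two hN _ _) (Prod.ext (by simpa) (by simpa)))
  · obtain ⟨s, hs⟩ := hsq (x * y)
    refine Or.inr (key 3 (s, y * s⁻¹) (y * s⁻¹, s⁻¹) (conj_three hN _ _) ?_)
    refine Prod.ext ?_ (by simp)
    simp only [Prod.fst_mul, Prod.fst_inv, mul_inv_rev, inv_inv]
    rw [← mul_assoc, hs, mul_inv_cancel_right]

end weights

section chars

variable {n : ℕ}

lemma chv_add (χ χ' : Wt n →₀ ℕ) (x : Fin n → Circle) : chv (χ + χ') x = chv χ x + chv χ' x := by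
  unfold chv
  exact Finsupp.sum_add_index' (fun _ => by simp) fun _ _ _ => by push_cast; ring

lemma chv_std (x : Fin n → Circle) : chv (std n) x = ∑ i, (x i : ℂ) := by
  classical
  unfold chv std
  rw [← Finsupp.sum_finsetSum_index (fun _ => by simp) fun _ _ _ => by push_cast; ring]
  refine Finset.sum_congr rfl fun i _ => ?_
  rw [Finsupp.sum_single_index (by simp), Nat.cast_one, one_mul, Finset.prod_eq_single i]
  · simp
  · intro j _ hj
    simp [Pi.single_eq_of_ne hj]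
  · simp

lemma isChar_zero : IsChar n 0 :=
  ⟨0, 1, continuous_const, fun x => by simp [tr, chv]⟩

lemma isChar_add {χ χ' : Wt n →₀ ℕ} (h : IsChar n χ) (h' : IsChar n χ') : IsChar n (χ + χ') := by
  obtain ⟨d, V, hV, hx⟩ := h
  obtain ⟨d', V', hV', hx'⟩ := h'
  refine ⟨d + d', (bsum d d').comp (V.prod V'), continuous_bsum.comp (hV.prodMk hV'), fun x => ?_⟩
  rw [MonoidHom.comp_apply, tr_bsum, chv_add, ← hx, ← hx']
  rfl

lemma isChar_std : IsChar n (std n) :=
  ⟨n, MonoidHom.id _, continuous_id, fun x => by rw [chv_std, MonoidHom.id_apply, tr_diagU]⟩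

lemma isChar_smul_std (k : ℕ) : IsChar n (k • std n) := by
  induction k with
  | zero => simpa using isChar_zero
  | succ k ih => rw [succ_nsmul]; exact isChar_add ih isChar_std

lemma exists_faithful {k : ℕ} (hk : 0 < k) {χ : Wt n →₀ ℕ} (h : IsChar n χ) :
    ∃ (d : ℕ) (V : U n →* U d), Continuous V ∧ Function.Injective V ∧
      ∀ x, tr (V (diagU x)) = chv (k • std n + χ) x := by
  obtain ⟨k, rfl⟩ : ∃ k', k = k' + 1 := ⟨k - 1, by omega⟩
  obtain ⟨d, V, hV, hx⟩ := isChar_add (isChar_smul_std k) h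
  refine ⟨n + d, (bsum n d).comp ((MonoidHom.id _).prod V),
    continuous_bsum.comp (continuous_id.prodMk hV), fun g g' hg => ?_, fun x => ?_⟩
  · exact congrArg Prod.fst (bsum_injective hg)
  · rw [MonoidHom.comp_apply, tr_bsum, succ_nsmul', add_assoc, chv_add, ← hx, chv_std, ← tr_diagU]
    rfl

lemma chv_push (S : Side) (χ : Wt S.n →₀ ℕ) (x : Circle × Circle) :
    chv χ (fun i => ch (S.a i) x) =
      (χ.mapDomain S.push).sum fun μ k => (k : ℂ) * (ch μ x : ℂ) := by
  rw [Finsupp.sum_mapDomain_index (fun _ => by simp) fun _ _ _ => by push_cast; ring]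
  unfold chv
  refine Finsupp.sum_congr fun ν _ => ?_
  congr 1
  rw [Side.push, ch_sum]
  simp only [ch_zsmul]
  exact ((map_prod Circle.coeHom _ _).trans (by simp only [map_zpow]; rfl)).symm

lemma chv_pb (S : Side) (χ : Wt S.n →₀ ℕ) (j : ℕ) :
    chv χ (fun i => ZMod.toCircle (j • S.b i)) =
      (χ.mapDomain S.pb).sum fun c k => (k : ℂ) * (ZMod.toCircle (j • c) : Circle) := by
  classical
  rw [Finsupp.sum_mapDomain_index (fun _ => by simp) fun _ _ _ => by push_cast; ring]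
  unfold chv
  refine Finsupp.sum_congr fun ν _ => ?_
  congr 1
  have h1 : ∀ F : Finset (Fin S.n), (ZMod.toCircle (j • ∑ i ∈ F, ν i • S.b i) : Circle) =
      ∏ i ∈ F, ZMod.toCircle (j • S.b i) ^ ν i := by
    intro F
    induction F using Finset.induction_on with
    | empty => simp
    | insert i F hi ih =>
      rw [Finset.sum_insert hi, Finset.prod_insert hi, smul_add, AddChar.map_add_eq_mul, ih,
        smul_comm, AddChar.map_zsmul_eq_zpow]
  rw [Side.pb, h1]
  exact ((map_prod Circle.coeHom _ _).trans (by simp only [map_zpow]; rfl)).symm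

end chars

theorem rep : SchurStmt → EquivStmt → DiagStmt → CoreStmt → RepStmt := by
  intro hS hE hD hC A _ _ _ _ _ ι f hN n m ρ σ hρ hρi hσ hσi
  obtain ⟨a, b, hg⟩ := exists_good hD hN hρ
  obtain ⟨a', b', hg'⟩ := exists_good hD hN hσ
  let S : Side := ⟨n, a, b, _, pos_of_surj (hg.surj hN hρi), tight_of_rot (hg.rot hN),
    hg.surj hN hρi, hg.rot hN, hg.odd hN hρi⟩
  let S' : Side := ⟨m, a', b', _, pos_of_surj (hg'.surj hN hσi), tight_of_rot (hg'.rot hN),
    hg'.surj hN hσi, hg'.rot hN, hg'.odd hN hσi⟩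
  obtain ⟨k, k', χ, χ', hk, hk', hχ, hχ', h1, h2⟩ := hC S S' (IsChar n) (IsChar m)
    ⟨isChar_zero, fun _ _ => isChar_add, hS n⟩ ⟨isChar_zero, fun _ _ => isChar_add, hS m⟩
  obtain ⟨d, V, hV, hVi, hx⟩ := exists_faithful hk hχ
  obtain ⟨d', W, hW, hWi, hx'⟩ := exists_faithful hk' hχ'
  have htr : ∀ g, tr (V (ρ g)) = tr (W (σ g)) := by
    intro g
    rcases conj_class hN g with ⟨x, rfl⟩ | ⟨c, j, rfl⟩
    · obtain ⟨u, hu⟩ := hg.tor
      obtain ⟨u', hu'⟩ := hg'.tor
      rw [hu, hu']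
      simp only [map_mul, map_inv, tr_conj]
      rw [hx, hx']
      exact (chv_push S _ x).trans ((congrArg (fun z : GaussianInt →₀ ℕ =>
        z.sum fun μ k => (k : ℂ) * (ch μ x : ℂ)) h1).trans (chv_push S' _ x).symm)
    · obtain ⟨u, hu⟩ := hg.cyc
      obtain ⟨u', hu'⟩ := hg'.cyc
      simp only [map_mul, map_inv, tr_conj, hu, hu']
      rw [hx, hx']
      exact (chv_pb S _ j).trans ((congrArg (fun z : ZMod 4 →₀ ℕ =>
        z.sum fun c k => (k : ℂ) * (ZMod.toCircle (j • c) : Circle)) h2).trans (chv_pb S' _ j).symm)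
  have hd : d = d' := by
    have h3 := htr 1
    simp only [map_one, tr_one] at h3
    exact_mod_cast h3
  subst hd
  obtain ⟨u, hu⟩ := hE A d (V.comp ρ) (W.comp σ) (hV.comp hρ) (hW.comp hσ) htr
  refine ⟨d, V, (MulAut.conj u).toMonoidHom.comp W, hV, hVi, ?_, ?_, fun g => hu g⟩
  · exact (continuous_const.mul hW).mul continuous_const
  · exact (MulAut.conj u).injective.comp hWi

end Pool.Agent.MP_caba0b_al.H41
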